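import Mathlib
import Pool.Agent.P.MP_8707bd_ag.Col.Big

open MvPolynomial

namespace Pool.Agent.P.MP_8707bd_ag.Old.From36

/-- SHGH for uniform fat points for all `r, m, d`, except possibly when `10 ≤ r ≤ 35` and
`√r m < d ≤ √r (m + 1) - 3`. -/
theorem result :
    ∀ r m d : ℕ,
      ¬ (10 ≤ r ∧ r ≤ 35 ∧ r * m ^ 2 < d ^ 2 ∧ (d + 3) ^ 2 ≤ r * (m + 1) ^ 2) →
      ∃ Φ : MvPolynomial (Fin r × Fin 3) ℂ, Φ ≠ 0 ∧
      ∀ p : Fin r → Fin 3 → ℂ,
        MvPolynomial.eval (fun ij : Fin r × Fin 3 => p ij.1 ij.2) Φ ≠ 0 →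
        (10 ≤ r → Module.finrank ℂ
            ↥((MvPolynomial.homogeneousSubmodule (Fin 3) ℂ d : Submodule ℂ (MvPolynomial (Fin 3) ℂ)) ⊓
              (Submodule.restrictScalars ℂ
                (⨅ i : Fin r, ((Ideal.span {L : MvPolynomial (Fin 3) ℂ | L.IsHomogeneous 1 ∧ MvPolynomial.eval (p i) L = 0} : Ideal (MvPolynomial (Fin 3) ℂ)) ^ m) : Ideal (MvPolynomial (Fin 3) ℂ))
                : Submodule ℂ (MvPolynomial (Fin 3) ℂ)))
            = (d + 2).choose 2 - r * (m + 1).choose 2) ∧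
        (Module.finrank ℂ
            ↥((MvPolynomial.homogeneousSubmodule (Fin 3) ℂ d : Submodule ℂ (MvPolynomial (Fin 3) ℂ)) ⊓
              (Submodule.restrictScalars ℂ
                (⨅ i : Fin r, ((Ideal.span {L : MvPolynomial (Fin 3) ℂ | L.IsHomogeneous 1 ∧ MvPolynomial.eval (p i) L = 0} : Ideal (MvPolynomial (Fin 3) ℂ)) ^ m) : Ideal (MvPolynomial (Fin 3) ℂ))
                : Submodule ℂ (MvPolynomial (Fin 3) ℂ)))
            ≠ (d + 2).choose 2 - r * (m + 1).choose 2 ↔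
          ((∃ G : MvPolynomial (Fin 3) ℂ, G ≠ 0 ∧ G.IsHomogeneous d ∧
              ∀ i : Fin r, G ∈ (Ideal.span {L : MvPolynomial (Fin 3) ℂ | L.IsHomogeneous 1 ∧ MvPolynomial.eval (p i) L = 0} : Ideal (MvPolynomial (Fin 3) ℂ)) ^ m) ∧
            ∃ F : MvPolynomial (Fin 3) ℂ, ∃ e : ℕ, Irreducible F ∧ F.IsHomogeneous e ∧
              (∃ n : Fin r → ℕ,
                (∀ i : Fin r,
                  F ∈ (Ideal.span {L : MvPolynomial (Fin 3) ℂ | L.IsHomogeneous 1 ∧ MvPolynomial.eval (p i) L = 0} : Ideal (MvPolynomial (Fin 3) ℂ)) ^ (n i) ∧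
                  F ∉ (Ideal.span {L : MvPolynomial (Fin 3) ℂ | L.IsHomogeneous 1 ∧ MvPolynomial.eval (p i) L = 0} : Ideal (MvPolynomial (Fin 3) ℂ)) ^ (n i + 1)) ∧
                (e : ℤ) ^ 2 - ∑ i : Fin r, ((n i : ℕ) : ℤ) ^ 2 = -1 ∧
                -3 * (e : ℤ) + ∑ i : Fin r, ((n i : ℕ) : ℤ) = -1) ∧
              ∃ s : ℕ, 1 < s ∧
                ∀ G : MvPolynomial (Fin 3) ℂ, G.IsHomogeneous d →
                  (∀ i : Fin r, G ∈ (Ideal.span {L : MvPolynomial (Fin 3) ℂ | L.IsHomogeneous 1 ∧ MvPolynomial.eval (p i) L = 0} : Ideal (MvPolynomial (Fin 3) ℂ)) ^ m) →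
                  F ^ s ∣ G)) := by
  intro r m d h
  obtain ⟨⟨Φ, h0, hΦ⟩, Ψ, h1, hΨ⟩ := Pool.Agent.P.MP_8707bd_ag.Col.both_of_ke (r := r) (m := m)
    (d := d) fun hr => by
      by_cases h36 : 36 ≤ r
      · exact Pool.Agent.P.MP_8707bd_ag.Col.ke_big h36 m d
      · exact Pool.Agent.P.MP_8707bd_ag.Col.ke_out hr (by omega)
  refine ⟨Φ * Ψ, mul_ne_zero h0 h1, fun p hp => ?_⟩
  rw [map_mul, mul_ne_zero_iff] at hp
  exact ⟨hΨ p hp.2, hΦ p hp.1⟩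

end Pool.Agent.P.MP_8707bd_ag.Old.From36
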