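import Mathlib
import Pool.Agent.P.MP_8707bd_ag.Nag.Final

open MvPolynomial

namespace Pool.Agent.P.MP_8707bd_ag.Old.ThinWindow

/-- SHGH for uniform fat points, for every multiplicity `m`, in all degrees `d` outside the window
`(√r - ε) m ≤ d < (√r + ε) m + 2 √r` with the exponentially small `ε = exp (-r / 10 ^ 8)`. -/
theorem result :
    ∀ r m d : ℕ, 10 ^ 11 ≤ r → 1 ≤ m →
      (d : ℝ) ∉ Set.Ico ((√(r : ℝ) - Real.exp (-((r : ℝ) / 10 ^ 8))) * m)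
        ((√(r : ℝ) + Real.exp (-((r : ℝ) / 10 ^ 8))) * m + 2 * √(r : ℝ)) →
      ∃ Φ : MvPolynomial (Fin r × Fin 3) ℂ, Φ ≠ 0 ∧
      ∀ p : Fin r → Fin 3 → ℂ,
        MvPolynomial.eval (fun ij : Fin r × Fin 3 => p ij.1 ij.2) Φ ≠ 0 →
        Module.finrank ℂ
            ↥((MvPolynomial.homogeneousSubmodule (Fin 3) ℂ d : Submodule ℂ (MvPolynomial (Fin 3) ℂ)) ⊓
              (Submodule.restrictScalars ℂ
                (⨅ i : Fin r, ((Ideal.span {L : MvPolynomial (Fin 3) ℂ | L.IsHomogeneous 1 ∧ MvPolynomial.eval (p i) L = 0} : Ideal (MvPolynomial (Fin 3) ℂ)) ^ m) : Ideal (MvPolynomial (Fin 3) ℂ))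
                : Submodule ℂ (MvPolynomial (Fin 3) ℂ)))
            = (d + 2).choose 2 - r * (m + 1).choose 2 ∧
        (Module.finrank ℂ
            ↥((MvPolynomial.homogeneousSubmodule (Fin 3) ℂ d : Submodule ℂ (MvPolynomial (Fin 3) ℂ)) ⊓
              (Submodule.restrictScalars ℂ
                (⨅ i : Fin r, ((Ideal.span {L : MvPolynomial (Fin 3) ℂ | L.IsHomogeneous 1 ∧ MvPolynomial.eval (p i) L = 0} : Ideal (MvPolynomial (Fin 3) ℂ)) ^ m) : Ideal (MvPolynomial (Fin 3) ℂ))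
                : Submodule ℂ (MvPolynomial (Fin 3) ℂ)))
            ≠ (d + 2).choose 2 - r * (m + 1).choose 2 ↔
          ((∃ G : MvPolynomial (Fin 3) ℂ, G ≠ 0 ∧ G.IsHomogeneous d ∧
              ∀ i : Fin r, G ∈ (Ideal.span {L : MvPolynomial (Fin 3) ℂ | L.IsHomogeneous 1 ∧ MvPolynomial.eval (p i) L = 0} : Ideal (MvPolynomial (Fin 3) ℂ)) ^ m) ∧
            ∃ F : MvPolynomial (Fin 3) ℂ, ∃ e : ℕ, Irreducible F ∧ F.IsHomogeneous e ∧
              (∃ n : Fin r → ℕ,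
                (∀ i : Fin r,
                  F ∈ (Ideal.span {L : MvPolynomial (Fin 3) ℂ | L.IsHomogeneous 1 ∧ MvPolynomial.eval (p i) L = 0} : Ideal (MvPolynomial (Fin 3) ℂ)) ^ (n i) ∧
                  F ∉ (Ideal.span {L : MvPolynomial (Fin 3) ℂ | L.IsHomogeneous 1 ∧ MvPolynomial.eval (p i) L = 0} : Ideal (MvPolynomial (Fin 3) ℂ)) ^ (n i + 1)) ∧
                (e : ℤ) ^ 2 - ∑ i : Fin r, ((n i : ℕ) : ℤ) ^ 2 = -1 ∧
                -3 * (e : ℤ) + ∑ i : Fin r, ((n i : ℕ) : ℤ) = -1) ∧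
              ∃ s : ℕ, 1 < s ∧
                ∀ G : MvPolynomial (Fin 3) ℂ, G.IsHomogeneous d →
                  (∀ i : Fin r, G ∈ (Ideal.span {L : MvPolynomial (Fin 3) ℂ | L.IsHomogeneous 1 ∧ MvPolynomial.eval (p i) L = 0} : Ideal (MvPolynomial (Fin 3) ℂ)) ^ m) →
                  F ^ s ∣ G)) := by
  intro r m d hr hm hd
  rw [Set.mem_Ico, not_and_or, not_le, not_lt] at hd
  obtain ⟨Φ, hΦ, h⟩ := Pool.Agent.P.MP_8707bd_ag.Nag.final r m d hr hm hd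
  refine ⟨Φ, hΦ, fun p hp => ?_⟩
  obtain ⟨h1, h2⟩ := h p hp
  refine ⟨h1, fun hne => absurd h1 hne, ?_⟩
  rintro ⟨⟨G, hG0, hG⟩, F, e, hF, hFe, ⟨n, hn, -, hs⟩, s, hs1, hall⟩
  have hbot := h2 F e n hF.ne_zero hFe (fun i => (hn i).2)
    (by have : ((∑ i, n i : ℕ) : ℤ) = ∑ i, (n i : ℤ) := by push_cast; rfl
        omega)
    (fun G hG => (pow_dvd_pow F hs1).trans
      (hall G (Pool.Agent.P.MP_8707bd_ag.mem_fat.1 hG).1 (Pool.Agent.P.MP_8707bd_ag.mem_fat.1 hG).2))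
  have : G ∈ Pool.Agent.P.MP_8707bd_ag.fat p (fun _ => m) d :=
    Pool.Agent.P.MP_8707bd_ag.mem_fat.2 hG
  rw [hbot] at this
  exact absurd this hG0

end Pool.Agent.P.MP_8707bd_ag.Old.ThinWindow
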